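import Mathlib
import Pool.Agent.Q168.Walsh2

/-! The Walsh means `U^α_{2^n}` are not uniformly bounded from `H_p` to `L_p`,
`p = 1/(1+α)`, for any `α ∈ (0,1)`. -/

open MeasureTheory Set Filter Finset
open scoped ENNReal NNReal

noncomputable section

namespace Pool.Agent.Results.MP_d27c5e_an.UalphaEndpointUnbounded

open Pool.Agent.Q168.Mono Pool.Agent.Q168.Walsh

/-- `Q_n = ∑_{k=1}^n k^{α-1}` -/
def Q (α : ℝ) (n : ℕ) : ℝ := ∑ k ∈ Finset.Icc 1 n, (k : ℝ) ^ (α - 1)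

/-- the means `U_n^α f = (1/Q_n) ∑_{k=1}^n (n+1-k)^{α-1} S_k f` -/
def U (α : ℝ) (n : ℕ) (f : ℕ → G → ℝ) (x : G) : ℝ :=
  (Q α n)⁻¹ * ∑ k ∈ Finset.Icc 1 n, ((n : ℝ) + 1 - k) ^ (α - 1) * S f k x

lemma bern (θ : ℝ) (h0 : 0 < θ) (h1 : θ < 1) (n : ℕ) :
    ((n : ℝ) / (n + 1)) ^ θ ≤ 1 - θ / (n + 1) := by
  have h := rpow_one_add_le_one_add_mul_self (s := -1 / ((n : ℝ) + 1)) (p := θ)
    (by
      rw [le_div_iff₀ (by positivity)]
      have : (0 : ℝ) ≤ n := Nat.cast_nonneg n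
      linarith) h0.le h1.le
  have e1 : 1 + -1 / ((n : ℝ) + 1) = n / (n + 1) := by
    field_simp
    ring
  rw [e1] at h
  calc _ ≤ _ := h
    _ = _ := by ring

lemma Q_le (α : ℝ) (h0 : 0 < α) (h1 : α < 1) (n : ℕ) : Q α n ≤ α⁻¹ * (n : ℝ) ^ α := by
  induction n with
  | zero =>
    simp [Q]
    rw [Real.zero_rpow h0.ne']
    simp
  | succ n ih =>
    unfold Q at ih ⊢
    rw [Finset.sum_Icc_succ_top (by omega)]
    push_cast
    have hb := bern α h0 h1 n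
    have hn : (0 : ℝ) < (n : ℝ) + 1 := by positivity
    have e1 : ((n : ℝ) + 1) ^ (α - 1) = ((n : ℝ) + 1) ^ α / (n + 1) := by
      rw [Real.rpow_sub hn, Real.rpow_one]
    have e2 : (n : ℝ) ^ α = ((n : ℝ) / (n + 1)) ^ α * ((n : ℝ) + 1) ^ α := by
      rw [← Real.mul_rpow (by positivity) (by positivity)]
      congr 1
      field_simp
    have h3 : (n : ℝ) ^ α ≤ (1 - α / (n + 1)) * ((n : ℝ) + 1) ^ α := by
      rw [e2]
      exact mul_le_mul_of_nonneg_right hb (by positivity)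
    rw [e1]
    calc _ ≤ α⁻¹ * (n : ℝ) ^ α + ((n : ℝ) + 1) ^ α / (n + 1) := by linarith
      _ ≤ α⁻¹ * ((1 - α / (n + 1)) * ((n : ℝ) + 1) ^ α) + ((n : ℝ) + 1) ^ α / (n + 1) := by
          have := mul_le_mul_of_nonneg_left h3 (inv_pos.2 h0).le
          linarith
      _ = α⁻¹ * ((n : ℝ) + 1) ^ α := by
          field_simp
          ring

lemma Q_pos (α : ℝ) (n : ℕ) (hn : 1 ≤ n) : 0 < Q α n := by
  unfold Q
  apply Finset.sum_pos
  · intro k hk
    rw [Finset.mem_Icc] at hk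
    have : (0 : ℝ) < k := by exact_mod_cast hk.1
    positivity
  · exact ⟨1, by simp [hn]⟩

/-- the integrand -/
def ff (θ : ℝ) (n j : ℕ) (t : ℝ) : ℝ :=
  t ^ (θ - 1) * Real.exp (-((j + 1 : ℝ) * t)) * (1 - Real.exp (-t)) ^ n

lemma ff_succ (θ : ℝ) (n j : ℕ) (t : ℝ) : ff θ (n + 1) j t = ff θ n j t - ff θ n (j + 1) t := by
  unfold ff
  have : Real.exp (-(((j + 1 : ℕ) + 1 : ℝ) * t)) = Real.exp (-((j + 1 : ℝ) * t)) * Real.exp (-t) := by
    rw [← Real.exp_add]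
    congr 1
    push_cast
    ring
  rw [this, pow_succ]
  ring

lemma ff_int0 (θ : ℝ) (h0 : 0 < θ) (j : ℕ) :
    ∫ t in Ioi 0, ff θ 0 j t = ((j : ℝ) + 1) ^ (-θ) * Real.Gamma θ := by
  unfold ff
  simp only [pow_zero, mul_one]
  rw [Real.integral_rpow_mul_exp_neg_mul_Ioi h0 (by positivity), one_div,
    Real.inv_rpow (by positivity), Real.rpow_neg (by positivity)]

lemma ff_integrable (θ : ℝ) (h0 : 0 < θ) (n : ℕ) : ∀ j : ℕ, IntegrableOn (ff θ n j) (Ioi 0) := by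
  induction n with
  | zero =>
    intro j
    by_contra h
    have := integral_undef h
    rw [ff_int0 θ h0 j] at this
    have h2 : 0 < ((j : ℝ) + 1) ^ (-θ) * Real.Gamma θ := by
      have := Real.Gamma_pos_of_pos h0
      positivity
    exact h2.ne' this
  | succ n ih =>
    intro j
    have : ff θ (n + 1) j = fun t => ff θ n j t - ff θ n (j + 1) t := by
      funext t
      exact ff_succ θ n j t
    rw [this]
    exact (ih j).sub (ih (j + 1))

lemma iter_q (θ : ℝ) (h0 : 0 < θ) (n : ℕ) : ∀ j : ℕ,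
    (dl^[n] (fun j : ℕ => ((j : ℝ) + 1) ^ (-θ))) j * Real.Gamma θ = ∫ t in Ioi 0, ff θ n j t := by
  induction n with
  | zero =>
    intro j
    rw [ff_int0 θ h0 j]
    rfl
  | succ n ih =>
    intro j
    rw [Function.iterate_succ_apply', dl, sub_mul, ih, ih]
    have : ff θ (n + 1) j = fun t => ff θ n j t - ff θ n (j + 1) t := by
      funext t
      exact ff_succ θ n j t
    rw [this, integral_sub (ff_integrable θ h0 n j) (ff_integrable θ h0 n (j + 1))]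

lemma cm_q (θ : ℝ) (h0 : 0 < θ) : IsCM (fun j : ℕ => ((j : ℝ) + 1) ^ (-θ)) := by
  intro n j
  have h := iter_q θ h0 n j
  have h1 : 0 ≤ ∫ t in Ioi 0, ff θ n j t := by
    apply setIntegral_nonneg measurableSet_Ioi
    intro t ht
    unfold ff
    have ht0 : 0 < t := ht
    have : Real.exp (-t) ≤ 1 := Real.exp_le_one_iff.2 (by linarith)
    have h3 : 0 ≤ 1 - Real.exp (-t) := by linarith
    positivity
  rw [← h] at h1
  exact nonneg_of_mul_nonneg_left h1 (Real.Gamma_pos_of_pos h0)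

/-- For every `α ∈ (0,1)` and every constant `C` there are a martingale `f ∈ H_{1/(1+α)}` and `n`
with `‖U^α_{2^n} f‖_{1/(1+α)} > C ‖f‖_{H_{1/(1+α)}}`. -/
theorem result (α : ℝ) (h0 : 0 < α) (h1 : α < 1) (C : ℝ≥0) :
    ∃ f : ℕ → G → ℝ, IsMart f ∧ hp (1 / (1 + α)) f ≠ ∞ ∧
      ∃ n : ℕ, C * hp (1 / (1 + α)) f < lp (1 / (1 + α)) (U α (2 ^ n) f) := by
  have hcm : IsCM (fun j : ℕ => ((j : ℝ) + 1) ^ (α - 1)) := by
    have := cm_q (1 - α) (by linarith)
    rwa [neg_sub] at this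
  obtain ⟨f, hf, hfin, n, hn⟩ := main α h0 h1 (fun j : ℕ => ((j : ℝ) + 1) ^ (α - 1)) hcm 1 1 α⁻¹
    one_pos one_pos (inv_pos.2 h0) (fun j => by simp) (fun j => by simp) (Q α) (Q_pos α)
    (fun n _ => Q_le α h0 h1 n) C
  refine ⟨f, hf, hfin, n, ?_⟩
  have e : (U α (2 ^ n) f) = fun x => (Q α (2 ^ n))⁻¹ *
      NS (fun j : ℕ => ((j : ℝ) + 1) ^ (α - 1)) f (2 ^ n) x := by
    funext x
    unfold U NS
    congr 1
    apply Finset.sum_congr rfl
    intro k hk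
    rw [Finset.mem_Icc] at hk
    congr 2
    rw [Nat.cast_sub hk.2]
    ring
  rw [e]
  exact hn

end Pool.Agent.Results.MP_d27c5e_an.UalphaEndpointUnbounded
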